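import Pool.Agent.H102R3.SKS

/-! TASK TUpper of project H102-SK: crude upper bound for the expected free energy of SK -/

set_option autoImplicit false
open MeasureTheory ProbabilityTheory Set

namespace Pool.Agent.H174R3.SKUpper

open Pool.H102.SK

lemma int_exp (ι : Type) [Fintype ι] (a : ι → ℝ) :
    Integrable (fun x : ι → ℝ => Real.exp (∑ i, a i * x i)) (G ι) ∧
    ∫ x, Real.exp (∑ i, a i * x i) ∂(G ι) = Real.exp (∑ i, a i ^ 2 / 2) := by
  have e : (fun x : ι → ℝ => Real.exp (∑ i, a i * x i)) =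
      fun x : ι → ℝ => ∏ i, (fun (i : ι) (y : ℝ) => Real.exp (a i * y)) i (x i) := by
    funext x
    rw [Real.exp_sum]
  constructor
  · rw [e]
    exact Integrable.fintype_prod (fun i => integrable_exp_mul_gaussianReal (a i))
  · rw [e]
    have h0 := integral_fintype_prod_eq_prod (𝕜 := ℝ) (μ := fun _ : ι => gaussianReal 0 1)
      (fun (i : ι) (y : ℝ) => Real.exp (a i * y))
    refine h0.trans ?_
    rw [Real.exp_sum]
    refine Finset.prod_congr rfl fun i _ => ?_
    have h := congrFun (mgf_fun_id_gaussianReal (μ := 0) (v := 1)) (a i)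
    unfold mgf at h
    rw [h]
    congr 1
    simp

lemma sq_le (β : ℝ) (N : ℕ) (hN : 0 < N) (σ : Fin N → Fin 2) :
    ∑ p, skA β N σ p ^ 2 / 2 ≤ β ^ 2 * N / 2 := by
  have hN' : (0 : ℝ) < N := by exact_mod_cast hN
  have h1 : ∀ p ∈ (Finset.univ : Finset (Fin N × Fin N)), skA β N σ p ^ 2 / 2 ≤ β ^ 2 / N / 2 := by
    intro p _
    have hs : ∀ k : ℕ, ((-1 : ℝ) ^ k) ^ 2 = 1 := by
      intro k
      rw [← pow_mul, mul_comm, pow_mul]
      norm_num
    unfold skA
    split_ifs
    · rw [mul_pow, mul_pow, div_pow, Real.sq_sqrt hN'.le, hs, hs]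
      simp
    · have : 0 ≤ β ^ 2 / N / 2 := by positivity
      simpa using this
  refine le_trans (Finset.sum_le_sum h1) ?_
  rw [Finset.sum_const, Finset.card_univ, Fintype.card_prod, Fintype.card_fin, nsmul_eq_mul]
  push_cast
  apply le_of_eq
  field_simp

theorem tUpper : TUpper := by
  intro β N hN
  have hN' : (0 : ℝ) < N := by exact_mod_cast hN
  unfold EF
  set m : ℝ := N * Real.log 2 + β ^ 2 * N / 2 with hm
  have hlog2 : Real.log 2 ≤ 1 := by
    have := Real.log_le_sub_one_of_pos (show (0 : ℝ) < 2 by norm_num)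
    linarith
  have hm1 : m ≤ (1 + β ^ 2) * N := by
    have h1 : (N : ℝ) * Real.log 2 ≤ N * 1 := mul_le_mul_of_nonneg_left hlog2 hN'.le
    have h2 : 0 ≤ β ^ 2 * (N : ℝ) := by positivity
    rw [hm]
    nlinarith
  have hm0 : 0 ≤ (1 + β ^ 2) * (N : ℝ) := by positivity
  by_cases hi : Integrable (fun x => Ff (skA β N) (fun _ => 0) x) (G (Fin N × Fin N))
  swap
  · rw [integral_undef hi]
    exact hm0
  have hZi : ∀ σ : Fin N → Fin 2,
      Integrable (fun x : Fin N × Fin N → ℝ => Real.exp (0 + ∑ i, skA β N σ i * x i)) (G (Fin N × Fin N)) := by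
    intro σ
    simp only [zero_add]
    exact (int_exp _ _).1
  have hZ : Integrable (fun x => Zf (skA β N) (fun _ => 0) x) (G (Fin N × Fin N)) := by
    unfold Zf
    exact integrable_finsetSum _ fun σ _ => hZi σ
  have hZint : ∫ x, Zf (skA β N) (fun _ => 0) x ∂(G (Fin N × Fin N)) ≤ Real.exp m := by
    unfold Zf
    rw [integral_finsetSum _ fun σ _ => hZi σ]
    have h1 : ∀ σ ∈ (Finset.univ : Finset (Fin N → Fin 2)),
        ∫ x : Fin N × Fin N → ℝ, Real.exp (0 + ∑ i, skA β N σ i * x i) ∂(G (Fin N × Fin N)) ≤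
          Real.exp (β ^ 2 * N / 2) := by
      intro σ _
      simp only [zero_add]
      rw [(int_exp _ _).2]
      exact Real.exp_le_exp.mpr (sq_le β N hN σ)
    refine le_trans (Finset.sum_le_sum h1) ?_
    rw [Finset.sum_const, Finset.card_univ, Fintype.card_fun, Fintype.card_fin, Fintype.card_fin,
      nsmul_eq_mul, hm, Real.exp_add]
    apply le_of_eq
    congr 1
    push_cast
    rw [mul_comm, Real.exp_mul, Real.exp_log (by norm_num)]
    norm_cast
  have hpt : ∀ x, Ff (skA β N) (fun _ => 0) x ≤ Real.exp (-m) * Zf (skA β N) (fun _ => 0) x + (m - 1) := by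
    intro x
    have hZ0 : 0 < Zf (skA β N) (fun _ => 0) x := by
      unfold Zf
      exact Finset.sum_pos (fun _ _ => Real.exp_pos _) Finset.univ_nonempty
    unfold Ff
    have h1 := Real.log_le_sub_one_of_pos (mul_pos (Real.exp_pos (-m)) hZ0)
    rw [Real.log_mul (Real.exp_pos _).ne' hZ0.ne', Real.log_exp] at h1
    linarith
  have h2 : ∫ x, Ff (skA β N) (fun _ => 0) x ∂(G (Fin N × Fin N)) ≤
      ∫ x, (Real.exp (-m) * Zf (skA β N) (fun _ => 0) x + (m - 1)) ∂(G (Fin N × Fin N)) :=
    integral_mono hi ((hZ.const_mul _).add (integrable_const _)) hpt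
  rw [integral_add (hZ.const_mul _) (integrable_const _), integral_const_mul, integral_const] at h2
  have h3 : Real.exp (-m) * ∫ x, Zf (skA β N) (fun _ => 0) x ∂(G (Fin N × Fin N)) ≤ 1 := by
    calc Real.exp (-m) * ∫ x, Zf (skA β N) (fun _ => 0) x ∂(G (Fin N × Fin N))
        ≤ Real.exp (-m) * Real.exp m := mul_le_mul_of_nonneg_left hZint (Real.exp_pos _).le
      _ = 1 := by rw [← Real.exp_add]; simp
  simp only [probReal_univ, smul_eq_mul, one_mul] at h2
  linarith

end Pool.Agent.H174R3.SKUpper
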